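import Mathlib
import Pool.Agent.H525.EX.Total4

/-!
# An exact formula for the primes of the form `u ^ 2 + c (u') ^ 2` over `F_q[t]`, `q` even, `c' = 1`
-/

namespace Pool.Agent.Results.MP_f1a94e_nt.ExactCountOneVariable

open Polynomial
open Pool.Agent.H525.QF Pool.Agent.H525.EX

theorem result (K : Type) [Field K] [Fintype K] (κ : ℕ) (hκ : Fintype.card K = 2 ^ κ)
    (c : K[X]) (hc : c.natDegree ≤ 2) (hc1 : derivative c = 1) (hc2 : c.coeff 2 ≠ 1)
    -- `P M` counts the `u` of degree `M`, `Pb b M` those with coefficient `b` of `X ^ (M - 1)`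
    (P : ℕ → ℕ) (hP : ∀ M : ℕ, P M = {u : K[X] | u.Monic ∧ u.natDegree = M ∧
      Irreducible (u ^ 2 + c * (derivative u) ^ 2)}.ncard)
    (Pb : K → ℕ → ℕ) (hPb : ∀ (b : K) (M : ℕ), Pb b M = {u : K[X] | u.Monic ∧ u.natDegree = M ∧
      u.coeff (M - 1) = b ∧ Irreducible (u ^ 2 + c * (derivative u) ^ 2)}.ncard)
    -- the two sides of the formula and the correction
    (L : (ℕ → ℕ) → ℕ → ℤ) (hL : ∀ (p : ℕ → ℕ) (M : ℕ), L p M =
      ∑ f ∈ M.divisors with M / f % 4 = 1, (2 * f : ℤ) * (p f : ℤ) *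
        ∑ d ∈ (M / f).divisors, jacobiSym (-1) d *
          ((2 : ℤ) ^ κ) ^ (f * ((d - 1) * (M / f / d - 1) / 2)))
    (R : ℕ → ℤ) (hR : ∀ M : ℕ, R M = ∑ d ∈ M.divisors with d % 2 = 1,
      jacobiSym (-((2 : ℤ) ^ κ) ^ M) d * ((2 : ℤ) ^ κ) ^ ((M + M / d) / 2))
    (E : ℕ → ℤ) (hE : ∀ M : ℕ, E M = if κ % 2 = 1 ∧ M % 4 = 2 then
      2 * ((2 : ℤ) ^ κ) ^ (M / 2) * ∑ d ∈ (M / 2).divisors, jacobiSym (-1) d else 0)
    -- the sign of `b`
    (s : K → ℕ → ℤ) (hs : ∀ (b : K) (M : ℕ), s b M = (-1) ^ (κ * (M / 2)) *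
      (open scoped Classical in
        if ∃ z : K, z ^ 2 + z = (if M % 2 = 1 then (1 + c.coeff 2) * (b ^ 2 + c.coeff 0)
          else (1 + c.coeff 2) ^ 3 * b ^ 2) then 1 else -1)) :
    -- the values: injectivity and degrees
    (∀ u w : K[X], u ^ 2 + c * (derivative u) ^ 2 = w ^ 2 + c * (derivative w) ^ 2 → u = w) ∧
    (∀ u : K[X], (u ^ 2 + c * (derivative u) ^ 2).natDegree = 2 * u.natDegree) ∧
    -- the exact formula
    (∀ M : ℕ, 1 ≤ M → L P M = R M - E M) ∧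
    -- the exact formula with prescribed second coefficient
    (∀ (M : ℕ) (b : K), 1 ≤ M → (2 : ℤ) ^ κ * L (Pb b) M =
      (1 - s b M) * R M - (open scoped Classical in if b = 0 then (2 : ℤ) ^ κ * E M else 0)) ∧
    (∀ (M : ℕ) (b : K), 1 ≤ M → s b M = 1 → Pb b M = 0) ∧
    -- the asymptotic formulas, with a power saving error term
    (∀ M : ℕ, 1 ≤ M →
      |(2 * M * P M : ℝ) - (2 ^ κ) ^ M| ≤ 2 * (M : ℝ) ^ 3 * (2 ^ κ) ^ (2 * M / 3)) ∧
    (∀ (M : ℕ) (b : K), 1 ≤ M → s b M = -1 →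
      |(2 : ℝ) ^ κ * (2 * M * Pb b M) - 2 * (2 ^ κ) ^ M| ≤
        4 * (M : ℝ) ^ 3 * (2 ^ κ) ^ (2 * M / 3 + 1)) ∧
    -- powers of two and odd primes
    (∀ k : ℕ, 2 ≤ k → 2 * 2 ^ k * P (2 ^ k) = (2 ^ κ) ^ (2 ^ k)) ∧
    (∀ M : ℕ, M.Prime → M ≠ 2 → (2 * M : ℤ) * P M = (2 ^ κ) ^ M +
      jacobiSym (-(2 : ℤ) ^ κ) M * (2 ^ κ) ^ ((M + 1) / 2) -
        (if M % 4 = 1 then 2 * 2 ^ κ else 0)) := by
  classical
  have hchar : CharP K 2 := by
    obtain ⟨p, hp⟩ := CharP.exists K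
    haveI := hp
    obtain ⟨m, hpp, hm⟩ := FiniteField.card K p
    rw [hκ] at hm
    have h1 : p ∣ 2 ^ κ := by
      rw [hm]
      exact dvd_pow_self p m.ne_zero
    have h2 : p = 2 := (Nat.prime_dvd_prime_iff_eq hpp Nat.prime_two).1 (hpp.dvd_of_dvd_pow h1)
    rw [h2] at hp
    exact hp
  have hκ1 : 1 ≤ κ := by
    rcases Nat.eq_zero_or_pos κ with h0 | h0
    · exfalso
      rw [h0, pow_zero] at hκ
      have := Fintype.one_lt_card (α := K)
      omega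
    · exact h0
  have hPu : P = pu K := by
    funext M
    rw [hP, ncard_c hc hc1 hc2]
  have hPc : ∀ b, Pb b = fun f => pc K c f b := by
    intro b
    funext M
    rw [hPb]
    rfl
  have hLm : ∀ (p : ℕ → ℕ) (M : ℕ), L p M = Lm κ p M := fun p M => by rw [hL]; rfl
  have hRm : ∀ M : ℕ, R M = Rm κ M := fun M => by rw [hR]; rfl
  have hEm : ∀ M : ℕ, E M = Em κ M := fun M => by rw [hE]; rfl
  have hss : ∀ (b : K) (M : ℕ), s b M = (-1) ^ (κ * (M / 2)) * psi (wc c b M) := by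
    intro b M
    rw [hs]
    unfold psi wc
    congr 1
    by_cases hh : ∃ z : K, z ^ 2 + z = (if M % 2 = 1 then (1 + c.coeff 2) * (b ^ 2 + c.coeff 0)
          else (1 + c.coeff 2) ^ 3 * b ^ 2)
    · rw [if_pos hh, if_pos hh]
    · rw [if_neg hh, if_neg hh]
  have hid := fun M hM => idu (K := K) all5 κ hκ M hM
  have hbd := all5.bdu κ (pu K) hκ1 (fun M => by have := pu_le (K := K) M; rwa [hκ] at this) hid
  have href := fun (M : ℕ) (hM : 1 ≤ M) (b : K) =>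
    refC all8 Pool.Agent.H720.EX.t_brgb κ hκ hc hc1 hc2 M hM b
  refine ⟨fun u w h => inj_c hc1 u w h, fun u => deg_c hc hc2 u, fun M hM => ?_, fun M b hM => ?_,
    fun M b hM h1 => ?_, fun M hM => ?_, fun M b hM h1 => ?_, fun k hk => ?_, fun M hM hM2 => ?_⟩
  · have h := hid M hM
    unfold IdU at h
    rw [hLm, hRm, hEm, hPu]
    unfold Lm Rm Em
    rw [h]
    congr 1
    have h3 : (Odd κ ∧ M % 4 = 2) ↔ (κ % 2 = 1 ∧ M % 4 = 2) := by rw [Nat.odd_iff]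
    by_cases hh : κ % 2 = 1 ∧ M % 4 = 2
    · rw [if_pos (h3.2 hh), if_pos hh]
    · rw [if_neg (fun h5 => hh (h3.1 h5)), if_neg hh]
  · rw [hLm, hRm, hEm, hss, hPc, href M hM b]
    congr 1
    by_cases hb : b = 0
    · rw [if_pos hb, if_pos hb, one_mul]
    · rw [if_neg hb, if_neg hb, zero_mul]
  · rw [hPc]
    rw [hss] at h1
    exact vanC all8 Pool.Agent.H720.EX.t_brgb κ hκ hc hc1 hc2 M hM b h1
  · rw [hPu]
    exact (hbd M hM).1
  · rw [hss] at h1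
    have h2 := href M hM b
    rw [h1] at h2
    have h3 := Pool.Agent.H772.EX.t_bdb κ (fun f => pc K c f b) (-1) (if b = 0 then 1 else 0) M hκ1
      hM (fun f => by have := pc_le c f b; rwa [hκ] at this) (Or.inr rfl)
      (by by_cases hb : b = 0
          · rw [if_pos hb]; exact Or.inr rfl
          · rw [if_neg hb]; exact Or.inl rfl) h2
    rw [hPc]
    have e1 : (1 - ((-1 : ℤ) : ℝ)) = 2 := by norm_num
    rw [e1] at h3
    exact h3
  · rw [hPu]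
    exact idu_two hk (hid (2 ^ k) (Nat.one_le_two_pow))
  · rw [hPu]
    exact (hbd M hM.one_lt.le).2 hM hM2

end Pool.Agent.Results.MP_f1a94e_nt.ExactCountOneVariable
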