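import Pool.Agent.H559.PV.Fin

set_option autoImplicit false

/-!
# The Poisson process of the prime values of all polynomials and systems of polynomials, in the random sieve model

For every prime `q` a residue class `a q` modulo `q` is drawn uniformly and independently. The random primes are the
integers `v ≥ 3` which are, for all primes `q ≤ z v`, not in the class `0` modulo `q` if `q ≤ (log v) ^ c`, and not in the
class `a q` modulo `q` if `q > (log v) ^ c`. This is the model of Banks, Ford and Tao (*Large prime gaps and
probabilistic models*) in which the small primes sieve out the class `0` as they do for the true primes. The sieving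
limit `z` is any nondecreasing function for which `∏_{q ≤ z v} (1 - 1 / q)` is asymptotic to `1 / log v`; the choice `zBFT`
of Banks, Ford and Tao is one of them. The exponent `c` is any number larger than `1`.

Let `F` be a system, that is, a nonempty finite set of irreducible nonconstant integer polynomials with positive leading
coefficients without a fixed prime divisor (for instance `{X ^ 2 + 1}`, `{X}`, `{X, X + 2}`). The constant `C F` of Bateman
and Horn exists and is positive (for `X ^ 2 + 1` it is the constant `C` of the problem). A place of `F` is an integer `m` for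
which all the `|f m|`, `f ∈ F`, are random primes. The length `unit F x = ∏ (deg f · log x) / C F` is the mean distance
between the places of `F` near `x`.

The theorem: almost surely, for ALL finite families of systems at once, the numbers of the places in the windows
`(n + u i · unit (F i) x, n + v i · unit (F i) x]` have for the random `n ≤ x`, `x → ∞`, asymptotically the joint
distribution of independent Poisson variables with means `v i - u i`. The windows which belong to the same system are to
be disjoint; different systems of the family may be anything but translates of one another (the windows of different systems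
may overlap, and the systems may have common polynomials or the same number of polynomials).

So in the model the places of each system, rescaled by the true local density, converge to the Poisson process of
intensity one, and the point processes of different systems, for instance of the primes, the twin primes, the `m` with
`m ^ 2 + 1` prime, the `m` with `m ^ 2 + 3` prime and the `m` with `m` and `m ^ 2 + 1` prime, are asymptotically independent.
-/

open MeasureTheory ProbabilityTheory Filter Topology Polynomial

namespace Pool.Agent.Results.MP_f1a94e_nt.PoissonProcessRandomSieve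

/-- `V m = ∏ (1 - 1 / q)` over the primes `q ≤ m` -/
noncomputable def V (m : ℕ) : ℝ := ∏ q ∈ (Finset.range (m + 1)).filter Nat.Prime, (1 - 1 / (q : ℝ))

/-- the classes `a q` are independent, and `a q` is uniform on `0, …, q - 1` for every prime `q` -/
structure Model {Ω : Type} [MeasurableSpace Ω] (P : Measure Ω) (a : ℕ → Ω → ℕ) : Prop where
  measurable : ∀ q, Measurable (a q)
  independent : iIndepFun a P
  uniform : ∀ q, q.Prime → ∀ r < q, P.real {ω | a q ω = r} = 1 / q

/-- the sieving limit of Banks, Ford and Tao: the largest `m` with `∏_{q ≤ m} (1 - 1 / q)⁻¹ ≤ log n` -/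
noncomputable def zBFT (n : ℕ) : ℕ := sSup {m : ℕ | (V m)⁻¹ ≤ Real.log n}

/-- the admissible sieving limits: the density of the random primes near `v` is asymptotic to `1 / log v` -/
def Limit (z : ℕ → ℕ) : Prop := Monotone z ∧ Tendsto (fun v => V (z v) * Real.log v) atTop (𝓝 1)

open Classical in
/-- the set of the random primes of a sample -/
def R {Ω : Type} (z : ℕ → ℕ) (c : ℝ) (a : ℕ → Ω → ℕ) (ω : Ω) : Set ℕ :=
  {v | 3 ≤ v ∧ ∀ q ≤ z v, q.Prime → v % q ≠ if (q : ℝ) ≤ Real.log v ^ c then 0 else a q ω}

/-- `ω_F(p)`: the number of the `n` modulo `p` with `∏ f n = 0` modulo `p` -/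
def omega (F : Finset ℤ[X]) (p : ℕ) : ℕ :=
  ((Finset.range p).filter fun n : ℕ => (p : ℤ) ∣ ∏ f ∈ F, f.eval (n : ℤ)).card

/-- the partial products of `C_F` -/
noncomputable def partialC (F : Finset ℤ[X]) (x : ℕ) : ℝ :=
  ∏ p ∈ (Finset.range (x + 1)).filter Nat.Prime, (1 - (omega F p : ℝ) / p) / (1 - 1 / (p : ℝ)) ^ F.card

/-- the systems: finitely many irreducible nonconstant polynomials with positive leading coefficients, without a fixed
prime divisor -/
def System (F : Finset ℤ[X]) : Prop :=
  F.Nonempty ∧ (∀ f ∈ F, Irreducible f ∧ 0 < f.natDegree ∧ 0 < f.leadingCoeff) ∧ ∀ p : ℕ, p.Prime → omega F p < p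

/-- `F` is a translate of `G` -/
def Translate (F G : Finset ℤ[X]) : Prop := ∃ t : ℤ, F = G.image (fun f => f.comp (X + Polynomial.C t))

/-- the mean distance of the places near `x` -/
noncomputable def unit (C : Finset ℤ[X] → ℝ) (F : Finset ℤ[X]) (x : ℕ) : ℝ :=
  (∏ f ∈ F, (f.natDegree : ℝ) * Real.log x) / C F

/-- the number of the places `m` of `F` with `n + lo < m ≤ n + hi` -/
noncomputable def places (A : Set ℕ) (F : Finset ℤ[X]) (lo hi : ℝ) (n : ℕ) : ℕ :=
  {m : ℕ | n + lo < m ∧ m ≤ n + hi ∧ ∀ f ∈ F, (f.eval (m : ℤ)).natAbs ∈ A}.ncard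

theorem result :
    (∃ (Ω : Type) (_ : MeasurableSpace Ω) (P : Measure Ω) (a : ℕ → Ω → ℕ), Model P a) ∧ Limit zBFT ∧
    ∃ C : Finset ℤ[X] → ℝ, (∀ F, System F → Tendsto (partialC F) atTop (𝓝 (C F)) ∧ 0 < C F) ∧
      ∀ z : ℕ → ℕ, Limit z → ∀ c : ℝ, 1 < c →
        ∀ (Ω : Type) [MeasurableSpace Ω] (P : Measure Ω) (a : ℕ → Ω → ℕ), Model P a →
          ∀ᵐ ω ∂P, ∀ (s : ℕ) (F : Fin s → Finset ℤ[X]) (u v : Fin s → ℝ), (∀ i, System (F i)) →
            (∀ i, 0 ≤ u i ∧ u i < v i) →
            (∀ i j, i ≠ j → (F i = F j ∧ (v i ≤ u j ∨ v j ≤ u i)) ∨ ¬ Translate (F i) (F j)) →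
            ∀ r : Fin s → ℕ, Tendsto (fun x : ℕ => ({n : ℕ | 1 ≤ n ∧ n ≤ x ∧
                ∀ i, places (R z c a ω) (F i) (u i * unit C (F i) x) (v i * unit C (F i) x) n = r i}.ncard : ℝ) / x)
              atTop (𝓝 (∏ i, (Real.exp (-(v i - u i)) * (v i - u i) ^ r i / (r i).factorial))) := by
  classical
  have hGP : ∀ F, System F → ∀ f ∈ F, Pool.Agent.H559.PV.GP f := fun F hF f hf =>
    ⟨(hF.2.1 f hf).1, (hF.2.1 f hf).2.1, (hF.2.1 f hf).2.2⟩
  have hsys : ∀ F, System F → Pool.Agent.H559.HY.Sys F := fun F hF => Pool.Agent.H559.PV.sys_of F (hGP F hF)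
  refine ⟨?_, ⟨Pool.Agent.T2H32.BF.z0_mono, Pool.Agent.T2H32.BF.z0_lim⟩, ?_⟩
  · obtain ⟨Ω, i, P, a, h⟩ := Pool.Agent.T2H32.BF.exists_model
    exact ⟨Ω, i, P, a, h.measurable, h.independent, h.uniform⟩
  · refine ⟨fun F => if h : System F then (Pool.Agent.H559.PV.CF_conv' F (hsys F h)).choose else 0, fun F hF => ?_, ?_⟩
    · simp only [hF, dite_true]
      exact ⟨(Pool.Agent.H559.PV.CF_conv' F (hsys F hF)).choose_spec.1,
        (Pool.Agent.H559.PV.CF_conv' F (hsys F hF)).choose_spec.2 hF.2.2⟩
    · intro z hz c hc Ω _ P a hmod
      have h : Pool.Agent.T2H32.BF.Model P a := ⟨hmod.measurable, hmod.independent, hmod.uniform⟩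
      filter_upwards [Pool.Agent.H559.PV.ae_OK h z (Pool.Agent.H559.HY.WW c) hz (Pool.Agent.H559.HY.cut_WW c hc)]
        with ω hω s F u v hF huv hsep r
      have e : R z c a ω = Pool.Agent.H559.HY.RS z (Pool.Agent.H559.HY.WW c) (fun p => a p ω) := by
        ext v
        simp only [R, Pool.Agent.H559.HY.RS, Set.mem_ofPred_eq]
        refine and_congr_right fun hv => ?_
        refine forall_congr' fun q => forall_congr' fun _ => forall_congr' fun _ => ?_
        have h0 : 0 ≤ Real.log v ^ c := Real.rpow_nonneg (Real.log_nonneg (by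
          have : 1 ≤ v := by omega
          exact_mod_cast this)) c
        have h1 : (q : ℝ) ≤ Real.log v ^ c ↔ q ≤ Pool.Agent.H559.HY.WW c v := (Nat.le_floor_iff h0).symm
        by_cases h2 : (q : ℝ) ≤ Real.log v ^ c
        · rw [if_pos h2, if_pos (h1.1 h2)]
        · rw [if_neg h2, if_neg (fun h3 => h2 (h1.2 h3))]
      rw [e]
      refine Pool.Agent.H559.PV.law_win z hz c hc _ hω s F (fun i => hGP (F i) (hF i)) (fun i => (hF i).1) _
        (fun i => ?_) (fun i => ?_) (fun i j hij => by rw [hij]) u v huv (fun i j hij => ?_) r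
      · simp only [hF i, dite_true]
        exact (Pool.Agent.H559.PV.CF_conv' (F i) (hsys (F i) (hF i))).choose_spec.1
      · simp only [hF i, dite_true]
        exact (Pool.Agent.H559.PV.CF_conv' (F i) (hsys (F i) (hF i))).choose_spec.2 (hF i).2.2
      · rcases hsep i j hij with h1 | h1
        · exact Or.inl h1
        · refine Or.inr fun t ht => h1 ⟨t, ?_⟩
          exact ht

end Pool.Agent.Results.MP_f1a94e_nt.PoissonProcessRandomSieve
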