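import Mathlib
import Pool.Agent.H290.FX.PDcnt
import Pool.Agent.H290.FX.PDlow
import Pool.Agent.H290.FX.PDrec
import Pool.Agent.H290.FX.PDort
import Pool.Agent.H290.FX.PDfin

/-!
# The `a` with `a ^ 2 + X` irreducible and prescribed coefficients

`K` is a finite field of characteristic `2` with `q` elements.  For every `ε > 0` there is a `δ > 0`
such that for all large `d` the number of the monic `a` of degree `d` with `a ^ 2 + X` irreducible
whose coefficients at given places `i ∈ I`, `|I| ≤ δ d`, have given values is the expected one up to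
the factor `1 + O(ε)`.  The places are arbitrary.

Proof: the exponential sums over these `a` with all additive characters
(`MP_7169d5_nt.AllAdditiveCharacters`).  The characters which detect the coefficients are trivial
on most of the powers of `X`; by a recurrence such a character has no squarefree period of small
degree, except for the ones of the constant coefficient, and for each larger degree there are few
characters with a squarefree period of this degree.

Authors: helper290 (statements, exponential sums to this result), helper658 (recurrence), helper261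
(lower bound for the periods), helper881 (number of characters); and the authors of
`MP_7169d5_nt.AllAdditiveCharacters` and of `MP_f1a94e_nt.PowerSavingEvenChar`.
-/

set_option autoImplicit false

namespace Pool.Agent.Results.MP_f1a94e_nt.PrescribedCoefficients

open Polynomial

/-- the monic `a` of degree `d`, `a ^ 2 + X` irreducible, with the coefficient `w i` at every place
`i ∈ I` -/
def Landau (K : Type) [Field K] (d : ℕ) (I : Finset ℕ) (w : ℕ → K) : Set K[X] :=
  {a | a.Monic ∧ a.natDegree = d ∧ Irreducible (a ^ 2 + X) ∧ ∀ i ∈ I, a.coeff i = w i}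

open scoped Classical in
/-- the local factor at the prime `X`: `a ^ 2 + X` is divisible by `X` if `a.coeff 0 = 0` -/
noncomputable def factor (K : Type) [Field K] [Fintype K] (I : Finset ℕ) (w : ℕ → K) : ℝ :=
  if 0 ∈ I then (if w 0 = 0 then 0 else (Fintype.card K : ℝ) / (Fintype.card K - 1)) else 1

/-- **The `a` with `a ^ 2 + X` irreducible and prescribed coefficients.** -/
theorem result (K : Type) [Field K] [Fintype K] (hK : Even (Fintype.card K)) (ε : ℝ) (hε : 0 < ε) :
    ∃ δ : ℝ, 0 < δ ∧ ∃ d₀ : ℕ, ∀ (d : ℕ) (I : Finset ℕ) (w : ℕ → K), d₀ ≤ d →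
      (∀ i ∈ I, i < d) → (I.card : ℝ) ≤ δ * d →
      |((Landau K d I w).ncard : ℝ) -
          factor K I w * ((Fintype.card K : ℝ) ^ (d - I.card) / (2 * d))| ≤
        ε * ((Fintype.card K : ℝ) ^ (d - I.card) / (2 * d)) := by
  have hchar : CharP K 2 := by
    obtain ⟨p, hp⟩ := CharP.exists K
    have := hp
    obtain ⟨m, hprime, hcard⟩ := FiniteField.card K p
    rw [hcard] at hK
    have : p = 2 := (Nat.Prime.even_iff hprime).1 (Nat.even_pow.1 hK).1
    rwa [this] at hp
  obtain ⟨δ, hδ, d₀, h⟩ := Pool.Agent.H290.FX.PDfin.main Pool.Agent.H290.FX.PDort.chr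
    (Pool.Agent.H290.FX.PDlow.main Pool.Agent.H290.FX.PDrec.main)
    (Pool.Agent.H290.FX.PDcnt.main Pool.Agent.H290.FX.PDrec.main)
    Pool.Agent.H290.FX.PDort.main K ε hε
  refine ⟨δ, hδ, d₀, fun d I w hd hI hc => ?_⟩
  have h1 := h d I w hd hI hc
  have h2 : Landau K d I w = (Pool.Agent.H290.FX.D.Wd K d I w : Set K[X]) := by
    classical
    ext a
    unfold Pool.Agent.H290.FX.D.Wd
    rw [Finset.mem_coe, Finset.mem_filter, Pool.Agent.H694.Typ.mem_Mn]
    change (a.Monic ∧ a.natDegree = d ∧ Irreducible (a ^ 2 + X) ∧ ∀ i ∈ I, a.coeff i = w i) ↔ _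
    tauto
  have h3 : (Landau K d I w).ncard = (Pool.Agent.H290.FX.D.Wd K d I w).card := by
    rw [h2, Set.ncard_coe_finset]
  rw [h3]
  exact h1

end Pool.Agent.Results.MP_f1a94e_nt.PrescribedCoefficients
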